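import Pool.Agent.Helper2.NNQ.Stm

/-!
# The part U1 of the almost sure law for `⌊(n + θ)^n⌋ + k` (MP_a70bdc_nt)

`t_U1 : S_COVER → S_U1`: the upper bound of the measure of the prime set of one member of the family, from the
covering by short intervals.
-/

set_option autoImplicit false

open MeasureTheory Filter Topology Finset
open scoped Real

namespace Pool.Agent.Helper32.NNQ

open Pool.Agent.Helper2.NNQ

/-- `n log n → ∞` -/
theorem tendsto_nlogn : Tendsto (fun n : ℕ => (n : ℝ) * Real.log n) atTop atTop :=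
  Tendsto.atTop_mul_atTop₀ tendsto_natCast_atTop_atTop
    (Real.tendsto_log_atTop.comp tendsto_natCast_atTop_atTop)

theorem t_U1 (h : S_COVER) : S_U1 := by
  obtain ⟨C, hC, hcov⟩ := h
  refine ⟨4 * C, by positivity, ?_⟩
  intro k g σ A B hG
  obtain ⟨n₀, hn₀3, hreg, -⟩ := hG.ev
  have hAB := hG.lt
  set m0 : ℝ := min 1 ((B - A) / 2) with hm0
  have hm0pos : 0 < m0 := by
    rw [hm0]; exact lt_min one_pos (by linarith)
  obtain ⟨n₁, hn₁⟩ := (tendsto_nlogn.eventually (eventually_ge_atTop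
    (max 8 (4 * (- Real.log m0))))).exists_forall_of_atTop
  refine ⟨max n₀ n₁, ?_⟩
  intro n hn
  have hn0 : n₀ ≤ n := le_trans (le_max_left _ _) hn
  have hn1 : n₁ ≤ n := le_trans (le_max_right _ _) hn
  obtain ⟨hR, hσ, hb⟩ := hreg n hn0
  have hL := hn₁ n hn1
  set L : ℝ := (n : ℝ) * Real.log n with hLdef
  have hL8 : 8 ≤ L := le_trans (le_max_left _ _) hL
  have hLm : 4 * (- Real.log m0) ≤ L := le_trans (le_max_right _ _) hL
  have hgA : 1 / 2 * L ≤ g n A := (hb A ⟨le_refl _, hAB.le⟩).1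
  set M : ℝ := min 1 (σ n * (B - A)) with hM
  have hMm0 : m0 ≤ M := by
    rw [hM, hm0]
    refine min_le_min (le_refl _) ?_
    nlinarith
  have hMpos : 0 < M := lt_of_lt_of_le hm0pos hMm0
  have hlogeq : Real.log (M * Real.exp (g n A)) = Real.log M + g n A := by
    rw [Real.log_mul hMpos.ne' (Real.exp_pos _).ne', Real.log_exp]
  have hlogM : Real.log m0 ≤ Real.log M := Real.log_le_log hm0pos hMm0
  have hlog : 1 / 4 * L ≤ Real.log (M * Real.exp (g n A)) := by
    rw [hlogeq]; linarith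
  have hposM : 0 < M * Real.exp (g n A) := mul_pos hMpos (Real.exp_pos _)
  have h4 : 4 ≤ M * Real.exp (g n A) := by
    have h2 : (2 : ℝ) ≤ Real.log (M * Real.exp (g n A)) := by linarith
    have h3 : Real.exp 2 ≤ M * Real.exp (g n A) := by
      rw [← Real.exp_log hposM]
      exact Real.exp_le_exp.mpr h2
    have h5 : (4 : ℝ) ≤ Real.exp 2 := by
      have h6 : (2 : ℝ) ≤ Real.exp 1 := by
        have := Real.add_one_le_exp (1 : ℝ)
        linarith
      have h7 : Real.exp 2 = Real.exp 1 * Real.exp 1 := by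
        rw [← Real.exp_add]; norm_num
      rw [h7]
      nlinarith
    linarith
  obtain ⟨T, hT1, hT2, hT3⟩ := hcov k (g n) (σ n) A B hR hAB h4
  have hσpos : 0 < σ n := hR.pos
  have hδ : ∀ p ∈ T, volume.real (Set.Icc p.1 (p.1 + 1 / (σ n * Real.exp (g n p.2)))) =
      1 / (σ n * Real.exp (g n p.2)) := by
    intro p _
    rw [Real.volume_real_Icc_of_le]
    · ring
    · have : 0 ≤ 1 / (σ n * Real.exp (g n p.2)) := by positivity
      linarith
  have hfin : volume (⋃ p ∈ T, Set.Icc p.1 (p.1 + 1 / (σ n * Real.exp (g n p.2)))) ≠ ⊤ := by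
    refine ne_of_lt (lt_of_le_of_lt (measure_biUnion_finset_le T _) ?_)
    refine ENNReal.sum_lt_top.mpr ?_
    intro p _
    rw [Real.volume_Icc]
    exact ENNReal.ofReal_lt_top
  have hm1 : volume.real (PP (g n) k ∩ Set.Icc A B) ≤
      ∑ p ∈ T, 1 / (σ n * Real.exp (g n p.2)) := by
    calc volume.real (PP (g n) k ∩ Set.Icc A B)
        ≤ volume.real (⋃ p ∈ T, Set.Icc p.1 (p.1 + 1 / (σ n * Real.exp (g n p.2)))) :=
          measureReal_mono hT2 hfin
      _ ≤ ∑ p ∈ T, volume.real (Set.Icc p.1 (p.1 + 1 / (σ n * Real.exp (g n p.2)))) :=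
          measureReal_biUnion_finset_le T _
      _ = ∑ p ∈ T, 1 / (σ n * Real.exp (g n p.2)) := Finset.sum_congr rfl hδ
  have hLpos : 0 < L := by linarith
  calc volume.real (PP (g n) k ∩ Set.Icc A B)
      ≤ ∑ p ∈ T, 1 / (σ n * Real.exp (g n p.2)) := hm1
    _ ≤ C * (B - A) / Real.log (M * Real.exp (g n A)) := hT3
    _ ≤ C * (B - A) / (1 / 4 * L) := by
        refine div_le_div_of_nonneg_left ?_ (by positivity) hlog
        have : 0 < B - A := by linarith
        positivity
    _ = 4 * C * (B - A) * (1 / L) := by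
        field_simp

end Pool.Agent.Helper32.NNQ
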